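import Pool.Agent.KS6_88.IM.Pat

/-! Main theorem for families of patterns. -/

set_option autoImplicit false

open Classical Finset

namespace Pool.Agent.KS6_88.IM

open ImmLog ImmLog.M19 ImmLog.M24 ImmLog.M25

/-- large average degree forces every finite multigraph as an immersion -/
theorem maderP {k : ℕ} {E : Type} [Finite E] (s t : E → Fin k) :
    ∃ d : ℝ, ∀ (m : ℕ) (H : SimpleGraph (Fin m)),
      d ≤ 2 * (H.edgeSet.ncard : ℝ) / (m : ℝ) → Imm s t H := by
  obtain ⟨d, hd⟩ := mader (k + Nat.card E)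
  refine ⟨d, fun m H hH => ?_⟩
  obtain ⟨f, hf, P, hP1, hP2⟩ := hd m H hH
  set j : E → Fin (k + Nat.card E) := fun e => Fin.natAdd k (Finite.equivFin E e) with hj
  have hjinj : Function.Injective j := by
    intro a b hab
    exact (Finite.equivFin E).injective (Fin.natAdd_injective _ _ hab)
  set c : Fin k → Fin (k + Nat.card E) := Fin.castAdd (Nat.card E) with hc
  have hlt : ∀ i e, c i < j e := by
    intro i e
    rw [Fin.lt_def, hc, hj]
    simp only [Fin.val_castAdd, Fin.val_natAdd]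
    omega
  set Q : ∀ e : E, H.Walk (f (c (s e))) (f (c (t e))) := fun e =>
    (P (c (s e)) (j e)).append (P (c (t e)) (j e)).reverse with hQ
  have hQe : ∀ e x, x ∈ (Q e).bypass.edges → ∃ i, x ∈ (P (c i) (j e)).edges := by
    intro e x hx
    have := (Q e).edges_bypass_subset_edges hx
    rw [hQ, SimpleGraph.Walk.edges_append, List.mem_append, SimpleGraph.Walk.edges_reverse,
      List.mem_reverse] at this
    rcases this with h | h
    · exact ⟨_, h⟩
    · exact ⟨_, h⟩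
  refine ⟨fun i => f (c i), hf.comp (Fin.castAdd_injective _ _), fun e => (Q e).bypass,
    fun e => (Q e).bypass_isPath, ?_⟩
  intro e e' hne x hx hx'
  obtain ⟨i, hi⟩ := hQe e x hx
  obtain ⟨i', hi'⟩ := hQe e' x hx'
  exact hP2 _ _ _ _ (hlt i e) (hlt i' e') (Or.inr fun h => hne (hjinj h)) hi hi'

section family

variable {ι : Type} (k : ι → ℕ) (E : ι → Type) (s t : ∀ i, E i → Fin (k i))

/-- the average degrees which force an immersion of a member of the family -/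
def thr : Set ℝ := {d : ℝ | ∀ (m : ℕ) (H : SimpleGraph (Fin m)),
          d ≤ 2 * (H.edgeSet.ncard : ℝ) / (m : ℝ) → ∃ i, Imm (s i) (t i) H}

theorem main (hι : ∃ i, Finite (E i)) (hk : ∀ i, 1 ≤ k i) (ε : ℝ) (hε : 0 < ε) : ∃ α : ℝ,
    ∀ (n : ℕ) (G : SimpleGraph (Fin n)),
      sInf (thr k E s t) + ε ≤ 2 * (G.edgeSet.ncard : ℝ) / (n : ℝ) →
      ∃ i, ∃ B : ℕ, ImmLe (s i) (t i) G B ∧ (B : ℝ) ≤ α * Real.log (n : ℝ) := by
  have hne : (thr k E s t).Nonempty := by
    obtain ⟨i, hi⟩ := hι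
    obtain ⟨d, hd⟩ := maderP (s i) (t i)
    exact ⟨d, fun m H hH => ⟨i, hd m H hH⟩⟩
  have hpos : ∀ d ∈ thr k E s t, 0 ≤ d := by
    intro d hd
    by_contra hlt
    push Not at hlt
    obtain ⟨i, f, _⟩ := hd 0 ⊥ (by simp; exact hlt.le)
    exact (f ⟨0, hk i⟩).elim0
  set I := sInf (thr k E s t) with hIdef
  have hI : 0 ≤ I := le_csInf hne hpos
  have hImm : ∀ (m : ℕ) (J : SimpleGraph (Fin m)), 0 < m → I * m < nd J →
      ∃ i, Imm (s i) (t i) J := by
    intro m J hm hJ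
    have hm' : (0:ℝ) < m := by exact_mod_cast hm
    have h1 : I < 2 * (J.edgeSet.ncard : ℝ) / (m : ℝ) := by
      rw [lt_div_iff₀ hm']
      rw [nd_eq_ncard] at hJ
      push_cast at hJ
      exact hJ
    obtain ⟨d, hd, hdlt⟩ := exists_lt_of_csInf_lt hne h1
    exact hd m J hdlt.le
  obtain ⟨K, b, h1, hb0, hb1, hK1, hdic⟩ := dichotomy I ε hI hε
  obtain ⟨d, hKd, hd⟩ : ∃ d : ℕ, K ≤ d ∧ 16 * I * K < ε * 2 ^ d := by
    refine ⟨K + ⌈16 * I * K / ε⌉₊, Nat.le_add_right _ _, ?_⟩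
    have e1 : 16 * I * K / ε ≤ (⌈16 * I * K / ε⌉₊ : ℝ) := Nat.le_ceil _
    have e2 : ((⌈16 * I * K / ε⌉₊ : ℕ) : ℝ) < 2 ^ ⌈16 * I * K / ε⌉₊ := by
      exact_mod_cast Nat.lt_two_pow_self
    have e3 : (2:ℝ) ^ ⌈16 * I * K / ε⌉₊ ≤ 2 ^ (K + ⌈16 * I * K / ε⌉₊) :=
      pow_le_pow_right₀ (by norm_num) (Nat.le_add_left _ _)
    have e4 : 16 * I * K / ε < 2 ^ (K + ⌈16 * I * K / ε⌉₊) := lt_of_le_of_lt e1 (lt_of_lt_of_le e2 e3)
    rw [div_lt_iff₀ hε] at e4
    linarith
  have hterm : ∀ q : Fin (K + 1), ∃ (C : ℝ) (h0 : ℕ), 0 ≤ C ∧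
      ∀ (m : ℕ) (H : SimpleGraph (Fin m)) (x c1 : ℝ),
      Good ε x (I + ε + 1) c1 H → h0 ≤ m →
      ∀ (fam : Finset (Finset (Fin m))) (E : Finset (Fin m) → SimpleGraph (Fin m)),
      Terms H fam E q K (m / 2) → (m : ℝ) ^ b ≤ fam.card →
      ∃ A : (Fin d → Bool) → Finset (Fin m), Function.Injective A ∧ (∀ x, A x ∈ fam) ∧
        ∃ (L : ℕ) (Lk : (Fin d → Bool) → Fin q → SimpleGraph (Fin m)), (L : ℝ) ≤ C * x ∧
          (∀ x j, Lk x j ≤ H) ∧ (∀ x j, nd (Lk x j) ≤ 2 * L) ∧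
          (∀ x j, x (Fin.castLE ((Nat.lt_succ_iff.1 q.2).trans hKd) j) = false → ∃ u ∈ A x,
            ∃ v ∈ A (Function.update x (Fin.castLE ((Nat.lt_succ_iff.1 q.2).trans hKd) j) true),
              (Lk x j).Reachable u v) ∧
          (∀ x j y i, (x, j) ≠ (y, i) → Disjoint (Lk x j) (Lk y i)) ∧
          (∀ x j y, Disjoint (Lk x j) (E (A y))) := by
    intro q
    exact terminals_asymp ε (I + ε + 1) hε (by linarith) (by linarith) q d K
      ((Nat.lt_succ_iff.1 q.2).trans hKd) hK1 b hb0 hb1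
  choose Cf hf hC0 hterm' using hterm
  set C : ℝ := ∑ q, Cf q with hCdef
  have hCle : ∀ q, Cf q ≤ C := fun q => Finset.single_le_sum (f := Cf) (fun i _ => hC0 i) (Finset.mem_univ q)
  have hC0' : 0 ≤ C := Finset.sum_nonneg (fun i _ => hC0 i)
  set h2 : ℕ := ∑ q, hf q with hh2
  have hhle : ∀ q, hf q ≤ h2 := fun q =>
    Finset.single_le_sum (f := hf) (fun i _ => Nat.zero_le _) (Finset.mem_univ q)
  set h3 : ℕ := max h1 h2 with hh3
  set Mc : ℕ := (2 ^ d * K + K) ^ 2 with hMc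
  have hlog2 : 0 < Real.log 2 := Real.log_pos (by norm_num)
  set Kk : ℕ := 2 ^ d * K + K with hKk
  refine ⟨((h3 : ℝ) + Kk + 2 * Mc) / Real.log 2 + 2 * Mc * C, ?_⟩
  intro n G hG
  have hn : 2 ≤ n := by
    by_contra hlt
    push Not at hlt
    have hzero : 2 * (G.edgeSet.ncard : ℝ) / (n : ℝ) = 0 := by
      interval_cases n
      · simp
      · have : G.edgeSet = ∅ := by
          rw [SimpleGraph.edgeSet_eq_empty]
          ext u v
          simp only [SimpleGraph.bot_adj, iff_false]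
          intro h
          exact h.ne (Subsingleton.elim _ _)
        rw [this]; simp
    rw [hzero] at hG
    linarith
  have hlogn : Real.log 2 ≤ Real.log n := by
    apply Real.log_le_log (by norm_num)
    exact_mod_cast hn
  have hlogn0 : 0 < Real.log n := lt_of_lt_of_le hlog2 hlogn
  have hratio : 1 ≤ Real.log n / Real.log 2 := by
    rw [le_div_iff₀ hlog2]; linarith
  obtain ⟨m, H, e, he, hom, hgood⟩ := exists_good I ε hI hε n hn G hG
  have hm2 : 2 ≤ m := by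
    have := hgood.card_ge
    simpa using this
  by_cases hm : m < h3
  · obtain ⟨i0, hi0⟩ : ∃ i, Imm (s i) (t i) H := by
      apply hImm m H (by omega)
      have hlo := hgood.lo
      rw [Fintype.card_fin] at hlo
      have hm0 : (0:ℝ) < m := by
        have : 0 < m := by omega
        exact_mod_cast this
      nlinarith
    refine ⟨i0, m, immLe_transfer e he hom (imm_le hi0), ?_⟩
    · have e1 : (m : ℝ) ≤ (h3 : ℝ) := by exact_mod_cast hm.le
      have e2 : ((h3 : ℝ) + Kk + 2 * Mc) / Real.log 2 * Real.log n =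
          ((h3 : ℝ) + Kk + 2 * Mc) * (Real.log n / Real.log 2) := by ring
      have e3 : ((h3 : ℝ) + Kk + 2 * Mc) ≤ ((h3 : ℝ) + Kk + 2 * Mc) * (Real.log n / Real.log 2) := by
        have : (0:ℝ) ≤ ((h3 : ℝ) + Kk + 2 * Mc) := by positivity
        nlinarith
      have e4 : 0 ≤ 2 * (Mc : ℝ) * C * Real.log n := by positivity
      have e5 : (0:ℝ) ≤ Kk + 2 * Mc := by positivity
      rw [add_mul, e2]
      linarith
  · push Not at hm
    obtain ⟨Y0, q, fam, hqK, hY0, hT, hAY, hsc, hfc⟩ := hdic m H (Real.log n) hgood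
      (le_trans (le_max_left _ _) hm)
    have hq : q < K + 1 := Nat.lt_succ_of_le hqK
    obtain ⟨A, hAinj, hAfam, L, Lk, hL, hLk, hLnd, hLc, hLd, hLE⟩ :=
      hterm' ⟨q, hq⟩ m H (Real.log n) (I + ε / 4) hgood
        (le_trans (hhle ⟨q, hq⟩) (le_trans (le_max_right _ _) hm)) fam (fun A => Ex H A Y0) hT hfc
    obtain ⟨i0, hass⟩ := assembleP k E s t I ε hI hε hImm H Y0 q K d L (hqK.trans hKd) hd hY0 A
      (fun x => hT.hne _ (hAfam x))
      (fun x y hxy => hT.hdisj _ (hAfam x) _ (hAfam y) (fun h => hxy (hAinj h)))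
      (fun x => hAY _ (hAfam x))
      (fun x => hT.hcard _ (hAfam x))
      (fun x => hsc _ (hAfam x))
      Lk hLk hLnd hLc hLd hLE
    refine ⟨i0, (2 ^ d * K + K) + (2 ^ d * K + K) ^ 2 * (2 * (L + 1)), immLe_transfer e he hom hass, ?_⟩
    rw [← hMc, ← hKk]
    push_cast
    have hLC : (L : ℝ) ≤ C * Real.log n := by
      refine hL.trans ?_
      exact mul_le_mul_of_nonneg_right (hCle _) hlogn0.le
    have e2 : ((h3 : ℝ) + Kk + 2 * Mc) / Real.log 2 * Real.log n =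
        ((h3 : ℝ) + Kk + 2 * Mc) * (Real.log n / Real.log 2) := by ring
    have e3 : ((h3 : ℝ) + Kk + 2 * Mc) ≤ ((h3 : ℝ) + Kk + 2 * Mc) * (Real.log n / Real.log 2) := by
      have : (0:ℝ) ≤ ((h3 : ℝ) + Kk + 2 * Mc) := by positivity
      nlinarith
    have e4 : 2 * (Mc : ℝ) * L ≤ 2 * (Mc : ℝ) * (C * Real.log n) :=
      mul_le_mul_of_nonneg_left hLC (by positivity)
    have e5 : (0:ℝ) ≤ h3 := by positivity
    rw [add_mul, e2]
    nlinarith


end family

end Pool.Agent.KS6_88.IM
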