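import Pool.Graph.R_seed8.ImmLog.M25

/-! Logarithmic size immersions of arbitrary patterns (finite multigraphs) and of families. The
proofs adapt those of the library modules `ImmLog.M19`, `M24`, `M25` from cliques to patterns. -/

set_option autoImplicit false

open Classical Finset

namespace Pool.Agent.KS6_88.IM

open ImmLog ImmLog.M19 ImmLog.M24 ImmLog.M25

variable {V : Type*} [Fintype V]

/-- immersion of the multigraph with vertices `Fin k` and edges `e : E` joining `s e` and `t e` -/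
def Imm {k : ℕ} {E : Type} (s t : E → Fin k) {W : Type*} (G : SimpleGraph W) : Prop :=
  ∃ f : Fin k → W, Function.Injective f ∧
    ∃ P : ∀ e : E, G.Walk (f (s e)) (f (t e)),
      (∀ e, (P e).IsPath) ∧ (∀ e e', e ≠ e' → (P e).edges.Disjoint (P e').edges)

/-- the same with at most `B` vertices -/
def ImmLe {k : ℕ} {E : Type} (s t : E → Fin k) {W : Type*} (G : SimpleGraph W) (B : ℕ) : Prop :=
  ∃ f : Fin k → W, Function.Injective f ∧
    ∃ P : ∀ e : E, G.Walk (f (s e)) (f (t e)),
      (∀ e, (P e).IsPath) ∧ (∀ e e', e ≠ e' → (P e).edges.Disjoint (P e').edges) ∧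
      {v : W | (∃ i, f i = v) ∨ ∃ e, v ∈ (P e).support}.ncard ≤ B

/-- composition of immersions: an immersion of `K_k` in `J` and a short immersion of `J` in `H` -/
theorem composeP {k : ℕ} {E : Type} (s t : E → Fin k) {W : Type*} [Fintype W] (J : SimpleGraph W)
    (H : SimpleGraph V) (ι : W → V)
    (hι : Function.Injective ι) (L : ℕ) (hJ : Imm s t J) (P : W → W → SimpleGraph V)
    (hPle : ∀ u v, J.Adj u v → P u v ≤ H) (hPsymm : ∀ u v, P u v = P v u)
    (hPnd : ∀ u v, J.Adj u v → nd (P u v) ≤ 2 * L)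
    (hPconn : ∀ u v, J.Adj u v → (P u v).Reachable (ι u) (ι v))
    (hPdisj : ∀ u v u' v', J.Adj u v → J.Adj u' v' → s(u, v) ≠ s(u', v') →
      Disjoint (P u v) (P u' v')) :
    ImmLe s t H (k + nd J * (2 * L)) := by
  obtain ⟨f, hf, Q, hQpath, hQdisj⟩ := hJ
  choose R hRpath hRedges using fun e : E => m19_path J H ι P hPle hPconn (Q e)
  refine ⟨fun i => ι (f i), hι.comp hf, R, hRpath, ?_, ?_⟩
  · intro i i' hne e he he'
    obtain ⟨x, y, h1, h2, h3⟩ := hRedges i e he
    obtain ⟨x', y', h1', h2', h3'⟩ := hRedges i' e he'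
    by_cases hs : s(x, y) = s(x', y')
    · exact hQdisj i i' hne h2 (by rw [hs]; exact h2')
    · have h4 := hPdisj x y x' y' h1 h1' hs
      rw [← SimpleGraph.disjoint_edgeSet] at h4
      exact Set.disjoint_left.1 h4 h3 h3'
  · set F : Finset V := (univ : Finset (Fin k)).image (fun i => ι (f i)) ∪
      ((univ : Finset (W × W)).filter (fun e => J.Adj e.1 e.2)).biUnion
        (fun e => (((univ : Finset (V × V)).filter
          (fun a => (P e.1 e.2).Adj a.1 a.2)).image Prod.fst)) with hF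
    have hsub : {v : V | (∃ i, ι (f i) = v) ∨ ∃ i, v ∈ (R i).support} ⊆ (F : Set V) := by
      rintro v (⟨i, hi⟩ | ⟨i, hv⟩)
      · rw [Finset.mem_coe, hF, Finset.mem_union]
        left
        exact Finset.mem_image.2 ⟨i, Finset.mem_univ _, hi⟩
      · rw [Finset.mem_coe, hF, Finset.mem_union]
        rcases m19_support (R i) hv with h1 | ⟨e, he, h1⟩
        · left
          exact Finset.mem_image.2 ⟨s i, Finset.mem_univ _, h1.symm⟩
        · right
          obtain ⟨x, y, h2, -, h3⟩ := hRedges i e he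
          obtain ⟨z, rfl⟩ := Sym2.mem_iff_exists.1 h1
          rw [SimpleGraph.mem_edgeSet] at h3
          rw [Finset.mem_biUnion]
          refine ⟨(x, y), ?_, ?_⟩
          · exact Finset.mem_filter.2 ⟨Finset.mem_univ _, h2⟩
          · exact Finset.mem_image.2 ⟨(v, z), Finset.mem_filter.2 ⟨Finset.mem_univ _, h3⟩, rfl⟩
    refine (Set.ncard_le_ncard hsub (Finset.finite_toSet F)).trans ?_
    rw [Set.ncard_coe_finset, hF]
    refine (Finset.card_union_le _ _).trans ?_
    apply Nat.add_le_add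
    · refine Finset.card_image_le.trans ?_
      simp
    · refine Finset.card_biUnion_le_card_mul _ _ _ ?_
      intro e he
      refine Finset.card_image_le.trans ?_
      exact hPnd e.1 e.2 (Finset.mem_filter.1 he).2


theorem imm_map {k : ℕ} {E : Type} (s t : E → Fin k) {W W' : Type*} (J' : SimpleGraph W')
    (J : SimpleGraph W) (e : W' → W)
    (he : Function.Injective e) (hom : ∀ a b, J'.Adj a b → J.Adj (e a) (e b))
    (h : Imm s t J') : Imm s t J := by
  obtain ⟨f, hf, P, hP, hD⟩ := h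
  let φ : J' →g J := ⟨e, fun {a b} h => hom a b h⟩
  refine ⟨e ∘ f, he.comp hf, fun i => (P i).map φ, ?_, ?_⟩
  · intro i
    exact (hP i).map he
  · intro i i' h3
    rw [SimpleGraph.Walk.edges_map, SimpleGraph.Walk.edges_map]
    intro s hs hs'
    obtain ⟨a, ha, rfl⟩ := List.mem_map.1 hs
    obtain ⟨b, hb, hab⟩ := List.mem_map.1 hs'
    have : b = a := Sym2.map.injective he hab
    subst this
    exact hD i i' h3 ha hb

theorem immLe_mono {k : ℕ} {E : Type} {s t : E → Fin k} {W : Type*} {G : SimpleGraph W} {B B' : ℕ}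
    (h : B ≤ B') (hG : ImmLe s t G B) : ImmLe s t G B' := by
  obtain ⟨f, hf, P, h1, h2, h3⟩ := hG
  exact ⟨f, hf, P, h1, h2, h3.trans h⟩

theorem immLe_transfer {k : ℕ} {E : Type} {s t : E → Fin k} {B : ℕ} {W W' : Type*}
    {H : SimpleGraph W} {G : SimpleGraph W'}
    (e : W → W') (he : Function.Injective e) (hom : ∀ u v, H.Adj u v → G.Adj (e u) (e v))
    (h : ImmLe s t H B) : ImmLe s t G B := by
  obtain ⟨f, hf, P, hP1, hP2, hP3⟩ := h
  let φ : H →g G := ⟨e, fun {a b} hab => hom a b hab⟩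
  have hφ : Function.Injective φ := he
  refine ⟨fun i => e (f i), fun i j hij => hf (he hij), fun i => (P i).map φ, ?_, ?_, ?_⟩
  · intro i
    exact SimpleGraph.Walk.map_isPath_of_injective hφ (hP1 i)
  · intro i i' hne
    have := hP2 i i' hne
    rw [SimpleGraph.Walk.edges_map, SimpleGraph.Walk.edges_map]
    exact (List.disjoint_map (Sym2.map.injective hφ) this)
  · have hset : {v : W' | (∃ i, e (f i) = v) ∨ ∃ i, v ∈ ((P i).map φ).support} =
        e '' {v : W | (∃ i, f i = v) ∨ ∃ i, v ∈ (P i).support} := by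
      ext v
      simp only [Set.mem_setOf_eq, Set.mem_image, SimpleGraph.Walk.support_map, List.mem_map]
      constructor
      · rintro (⟨i, hi⟩ | ⟨i, w, hw, hwv⟩)
        · exact ⟨f i, Or.inl ⟨i, rfl⟩, hi⟩
        · exact ⟨w, Or.inr ⟨i, hw⟩, hwv⟩
      · rintro ⟨w, (⟨i, hi⟩ | ⟨i, hw⟩), hwv⟩
        · exact Or.inl ⟨i, by rw [hi, hwv]⟩
        · exact Or.inr ⟨i, w, hw, hwv⟩
    rw [hset, Set.ncard_image_of_injective _ he]
    exact hP3

theorem imm_le {k : ℕ} {E : Type} {s t : E → Fin k} {m : ℕ} {H : SimpleGraph (Fin m)}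
    (h : Imm s t H) : ImmLe s t H m := by
  obtain ⟨f, hf, P, hP1, hP2⟩ := h
  refine ⟨f, hf, P, hP1, hP2, ?_⟩
  have := Set.ncard_le_ncard (Set.subset_univ
    {v : Fin m | (∃ i, f i = v) ∨ ∃ i, v ∈ (P i).support}) Set.finite_univ
  rwa [Set.ncard_univ, Nat.card_eq_fintype_card, Fintype.card_fin] at this

section family

variable {ι : Type} (k : ι → ℕ) (E : ι → Type) (s t : ∀ i, E i → Fin (k i))

/-- a graph whose edges lie inside `U` -/
theorem imm_of_dense (I : ℝ)
    (hImm : ∀ (m : ℕ) (J : SimpleGraph (Fin m)), 0 < m → I * m < nd J → ∃ i, Imm (s i) (t i) J)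
    (J : SimpleGraph V) (U : Finset V) (hU : ∀ u v, J.Adj u v → u ∈ U) (hpos : 0 < U.card)
    (hdense : I * U.card < nd J) : ∃ i, k i ≤ U.card ∧ Imm (s i) (t i) J := by
  let e : Fin U.card → V := fun i => (U.equivFin.symm i : V)
  have he : Function.Injective e := Subtype.val_injective.comp U.equivFin.symm.injective
  have hsurj : ∀ u ∈ U, ∃ i, e i = u := fun u hu => ⟨U.equivFin ⟨u, hu⟩, by simp [e]⟩
  let J' : SimpleGraph (Fin U.card) := J.comap e
  suffices hs : (nd J : ℝ) ≤ nd J' by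
    obtain ⟨i, hi⟩ := hImm _ J' hpos (lt_of_lt_of_le hdense hs)
    refine ⟨i, ?_, imm_map (s i) (t i) J' J e he (fun a b h => h) hi⟩
    obtain ⟨f, hf, -⟩ := hi
    have := Fintype.card_le_of_injective f hf
    rwa [Fintype.card_fin, Fintype.card_fin] at this
  rw [Nat.cast_le]
  unfold nd
  have hsub : univ.filter (fun p : V × V => J.Adj p.1 p.2) ⊆
      (univ.filter (fun p : Fin U.card × Fin U.card => J'.Adj p.1 p.2)).image
        (fun p => (e p.1, e p.2)) := by
    intro p hp
    simp only [mem_filter, mem_univ, true_and] at hp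
    obtain ⟨i, hi⟩ := hsurj p.1 (hU _ _ hp)
    obtain ⟨j, hj⟩ := hsurj p.2 (hU _ _ hp.symm)
    rw [Finset.mem_image]
    refine ⟨(i, j), ?_, by rw [hi, hj]⟩
    simp only [mem_filter, mem_univ, true_and]
    change J.Adj (e i) (e j)
    rw [hi, hj]
    exact hp
  exact (Finset.card_le_card hsub).trans Finset.card_image_le

/-- Assembly: linked terminals give a bounded graph `J` of average degree `> I` with a short
immersion in `H`. -/
theorem assembleP (I ε : ℝ) (hI : 0 ≤ I) (hε : 0 < ε)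
    (hImm : ∀ (m : ℕ) (J : SimpleGraph (Fin m)), 0 < m → I * m < nd J → ∃ i, Imm (s i) (t i) J)
    (H : SimpleGraph V) (Y0 : Finset V) (q K d L : ℕ) (hqd : q ≤ d)
    (hd : 16 * I * K < ε * 2 ^ d) (hY0 : Y0.card ≤ K)
    (A : (Fin d → Bool) → Finset V) (hne : ∀ x, (A x).Nonempty)
    (hdisj : ∀ x y, x ≠ y → Disjoint (A x) (A y)) (hAY : ∀ x, Disjoint (A x) Y0)
    (hcard : ∀ x, (A x).card ≤ K)
    (hscore : ∀ x, (I + ε / 16) * (A x).card ≤ inn H (A x) + q + 2 * eb H (A x) Y0)
    (Lk : (Fin d → Bool) → Fin q → SimpleGraph V) (hLk : ∀ x j, Lk x j ≤ H)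
    (hLnd : ∀ x j, nd (Lk x j) ≤ 2 * L)
    (hLc : ∀ x j, x (Fin.castLE hqd j) = false → ∃ u ∈ A x,
      ∃ v ∈ A (Function.update x (Fin.castLE hqd j) true), (Lk x j).Reachable u v)
    (hLd : ∀ x j y i, (x, j) ≠ (y, i) → Disjoint (Lk x j) (Lk y i))
    (hLE : ∀ x j y, Disjoint (Lk x j) (Ex H (A y) Y0)) :
    ∃ i, ImmLe (s i) (t i) H ((2 ^ d * K + K) + (2 ^ d * K + K) ^ 2 * (2 * (L + 1))) := by
  have hVne : Nonempty V := ⟨(hne (fun _ => false)).choose⟩
  choose! st hst en hen hrch using hLc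
  have hne' : ∀ x y v, v ∈ A x → v ∈ A y → x = y := by
    intro x y v hx hy
    by_contra hxy
    exact Finset.disjoint_left.1 (hdisj x y hxy) hx hy
  -- the graph
  let lnk : V → V → Prop := fun u v => ∃ p : (Fin d → Bool) × Fin q,
    p.1 (Fin.castLE hqd p.2) = false ∧ s(u, v) = s(st p.1 p.2, en p.1 p.2)
  have hlnk_symm : ∀ u v, lnk u v → lnk v u := by
    rintro u v ⟨p, h1, h2⟩
    exact ⟨p, h1, by rw [Sym2.eq_swap, h2]⟩
  have hst_ne : ∀ x j, x (Fin.castLE hqd j) = false → st x j ≠ en x j := by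
    intro x j h he
    have h1 := hst x j h
    have h2 := hen x j h
    rw [he] at h1
    have := hne' _ _ _ h1 h2
    have h3 := congrFun this (Fin.castLE hqd j)
    rw [h, Function.update_self] at h3
    exact absurd h3 (by decide)
  let J : SimpleGraph V :=
    { Adj := fun u v => (∃ x, (Ex H (A x) Y0).Adj u v) ∨ lnk u v
      symm := ⟨fun u v h => h.imp (fun ⟨x, hx⟩ => ⟨x, hx.symm⟩) (hlnk_symm u v)⟩
      loopless := ⟨fun u h => by
        rcases h with ⟨x, hx⟩ | ⟨p, h1, h2⟩
        · exact (Ex H (A x) Y0).loopless.irrefl _ hx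
        · rcases Sym2.eq_iff.1 h2 with ⟨h3, h4⟩ | ⟨h3, h4⟩
          · exact hst_ne _ _ h1 (h3.symm.trans h4)
          · exact hst_ne _ _ h1 (h4.symm.trans h3)⟩ }
  have hJ : ∀ u v, J.Adj u v ↔ (∃ x, (Ex H (A x) Y0).Adj u v) ∨ lnk u v := fun u v => Iff.rfl
  -- the vertex set
  let U : Finset V := Y0 ∪ univ.biUnion A
  have hAU : ∀ x v, v ∈ A x → v ∈ U := fun x v hv =>
    Finset.mem_union_right _ (Finset.mem_biUnion.2 ⟨x, Finset.mem_univ _, hv⟩)
  have hJU : ∀ u v, J.Adj u v → u ∈ U := by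
    intro u v h
    rcases (hJ u v).1 h with ⟨x, -, hx⟩ | ⟨p, h1, h2⟩
    · rcases hx with hx | hx | hx
      · exact hAU x _ hx.1
      · exact hAU x _ hx.1
      · exact Finset.mem_union_left _ hx.1
    · rcases Sym2.eq_iff.1 h2 with ⟨h3, -⟩ | ⟨h3, -⟩
      · rw [h3]; exact hAU _ _ (hst _ _ h1)
      · rw [h3]; exact hAU _ _ (hen _ _ h1)
  -- counting
  let flp : (Fin d → Bool) → Fin q → (Fin d → Bool) := fun x j =>
    Function.update x (Fin.castLE hqd j) (!x (Fin.castLE hqd j))
  have hflp : ∀ x j, flp x j ≠ x := by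
    intro x j h
    have := congrFun h (Fin.castLE hqd j)
    simp only [flp, Function.update_self] at this
    cases hx : x (Fin.castLE hqd j) <;> rw [hx] at this <;> exact absurd this (by decide)
  have hflpinj : ∀ x, Function.Injective (flp x) := by
    intro x i j hij
    by_contra hne
    have hc : Fin.castLE hqd i ≠ Fin.castLE hqd j := fun h => hne (Fin.castLE_injective hqd h)
    have := congrFun hij (Fin.castLE hqd i)
    simp only [flp, Function.update_self, Function.update_of_ne hc] at this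
    cases hx : x (Fin.castLE hqd i) <;> rw [hx] at this <;> exact absurd this (by decide)
  let dn : (Fin d → Bool) → Fin q → (Fin d → Bool) := fun x j =>
    Function.update x (Fin.castLE hqd j) false
  let lk : (Fin d → Bool) → Fin q → V × V := fun x j =>
    if x (Fin.castLE hqd j) = false then (st x j, en x j) else (en (dn x j) j, st (dn x j) j)
  have hdn : ∀ x j, dn x j (Fin.castLE hqd j) = false := by
    intro x j; simp only [dn, Function.update_self]
  have hdn2 : ∀ x j, x (Fin.castLE hqd j) = true →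
      Function.update (dn x j) (Fin.castLE hqd j) true = x := by
    intro x j h
    simp only [dn, Function.update_idem]
    rw [← h, Function.update_eq_self]
  have hdn3 : ∀ x j, x (Fin.castLE hqd j) = true → dn x j = flp x j := by
    intro x j h
    simp only [dn, flp, h, Bool.not_true]
  have hlk1 : ∀ x j, (lk x j).1 ∈ A x := by
    intro x j
    simp only [lk]
    split_ifs with h
    · exact hst x j h
    · have h' : x (Fin.castLE hqd j) = true := by simpa using h
      have := hen (dn x j) j (hdn x j)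
      rwa [hdn2 x j h'] at this
  have hlk2 : ∀ x j, (lk x j).2 ∈ A (flp x j) := by
    intro x j
    simp only [lk]
    split_ifs with h
    · have := hen x j h
      simpa only [flp, h, Bool.not_false] using this
    · have h' : x (Fin.castLE hqd j) = true := by simpa using h
      have := hst (dn x j) j (hdn x j)
      rw [← hdn3 x j h']
      exact this
  have hlk3 : ∀ x j, J.Adj (lk x j).1 (lk x j).2 := by
    intro x j
    rw [hJ]
    right
    simp only [lk]
    split_ifs with h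
    · exact ⟨(x, j), h, rfl⟩
    · exact ⟨(dn x j, j), hdn x j, Sym2.eq_swap⟩
  have hcount := nd_lower J H Y0 A hdisj hAY q flp hflp hflpinj lk hlk1 hlk2 hlk3
    (fun x u v h => (hJ u v).2 (Or.inl ⟨x, h⟩))
  -- numbers
  have hcardA : (univ.biUnion A).card = ∑ x, (A x).card :=
    Finset.card_biUnion fun x _ y _ hxy => hdisj x y hxy
  have hUcard : U.card ≤ K + ∑ x, (A x).card :=
    (Finset.card_union_le _ _).trans (by rw [hcardA]; exact Nat.add_le_add_right hY0 _)
  have hNA : (2 : ℝ) ^ d ≤ ((∑ x, (A x).card : ℕ) : ℝ) := by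
    have : 2 ^ d ≤ ∑ x, (A x).card := by
      calc 2 ^ d = ∑ _x : Fin d → Bool, 1 := by simp
        _ ≤ ∑ x, (A x).card := Finset.sum_le_sum fun x _ => Finset.card_pos.2 (hne x)
    exact_mod_cast this
  have hNA2 : ∑ x, (A x).card ≤ 2 ^ d * K := by
    calc ∑ x, (A x).card ≤ ∑ _x : Fin d → Bool, K := Finset.sum_le_sum fun x _ => hcard x
      _ = 2 ^ d * K := by simp
  have hdense : I * U.card < nd J := by
    have e1 : ((∑ x, (inn H (A x) + q + 2 * eb H (A x) Y0) : ℕ) : ℝ) ≤ nd J := by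
      exact_mod_cast hcount
    have e2 : (I + ε / 16) * ((∑ x, (A x).card : ℕ) : ℝ) ≤
        ((∑ x, (inn H (A x) + q + 2 * eb H (A x) Y0) : ℕ) : ℝ) := by
      push_cast
      rw [Finset.mul_sum]
      exact Finset.sum_le_sum fun x _ => hscore x
    have e3 : I * (U.card : ℝ) ≤ I * ((K : ℝ) + ((∑ x, (A x).card : ℕ) : ℝ)) := by
      apply mul_le_mul_of_nonneg_left _ hI
      exact_mod_cast hUcard
    have e4 : ε * 2 ^ d ≤ ε * ((∑ x, (A x).card : ℕ) : ℝ) := mul_le_mul_of_nonneg_left hNA hε.le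
    nlinarith
  have hUpos : 0 < U.card := by
    obtain ⟨v, hv⟩ := hne (fun _ => false)
    exact Finset.card_pos.2 ⟨v, hAU _ _ hv⟩
  obtain ⟨i0, hki, hJimm⟩ := imm_of_dense k E s t I hImm J U hJU hUpos hdense
  -- the paths
  let Q : Sym2 V → SimpleGraph V := fun e =>
    if ∃ x, e ∈ (Ex H (A x) Y0).edgeSet then SimpleGraph.fromEdgeSet {e} else
    if h : ∃ p : (Fin d → Bool) × Fin q, p.1 (Fin.castLE hqd p.2) = false ∧
      e = s(st p.1 p.2, en p.1 p.2) then Lk h.choose.1 h.choose.2 else ⊥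
  have hQ : ∀ e : Sym2 V, (∃ x, e ∈ (Ex H (A x) Y0).edgeSet ∧ Q e = SimpleGraph.fromEdgeSet {e}) ∨
      (∃ p : (Fin d → Bool) × Fin q, p.1 (Fin.castLE hqd p.2) = false ∧
        e = s(st p.1 p.2, en p.1 p.2) ∧ Q e = Lk p.1 p.2) ∨
      ((¬ ∃ x, e ∈ (Ex H (A x) Y0).edgeSet) ∧ (¬ ∃ p : (Fin d → Bool) × Fin q,
        p.1 (Fin.castLE hqd p.2) = false ∧ e = s(st p.1 p.2, en p.1 p.2)) ∧ Q e = ⊥) := by
    intro e
    by_cases h1 : ∃ x, e ∈ (Ex H (A x) Y0).edgeSet
    · obtain ⟨x, hx⟩ := h1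
      exact Or.inl ⟨x, hx, if_pos ⟨x, hx⟩⟩
    · by_cases h2 : ∃ p : (Fin d → Bool) × Fin q, p.1 (Fin.castLE hqd p.2) = false ∧
          e = s(st p.1 p.2, en p.1 p.2)
      · refine Or.inr (Or.inl ⟨h2.choose, h2.choose_spec.1, h2.choose_spec.2, ?_⟩)
        simp only [Q]
        rw [if_neg h1, dif_pos h2]
      · refine Or.inr (Or.inr ⟨h1, h2, ?_⟩)
        simp only [Q]
        rw [if_neg h1, dif_neg h2]
  have hExH : ∀ x, Ex H (A x) Y0 ≤ H := fun x a b h => h.1
  have hfin := composeP (s i0) (t i0) J H id Function.injective_id (L + 1) hJimm (fun u v => Q s(u, v))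
    (by
      intro u v _
      rcases hQ s(u, v) with ⟨x, h1, h2⟩ | ⟨p, -, -, h2⟩ | ⟨-, -, h2⟩
      · rw [h2]; exact (single_le h1).trans (hExH x)
      · rw [h2]; exact hLk _ _
      · rw [h2]; exact bot_le)
    (by intro u v; simp only [Sym2.eq_swap (a := u) (b := v)])
    (by
      intro u v _
      rcases hQ s(u, v) with ⟨x, h1, h2⟩ | ⟨p, -, -, h2⟩ | ⟨-, -, h2⟩
      · rw [h2]; have := nd_single u v; omega
      · rw [h2]; have := hLnd p.1 p.2; omega
      · rw [h2, nd_bot]; omega)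
    (by
      intro u v huv
      rcases hQ s(u, v) with ⟨x, h1, h2⟩ | ⟨p, h0, h1, h2⟩ | ⟨h1, h2, -⟩
      · rw [h2]
        apply SimpleGraph.Adj.reachable
        rw [SimpleGraph.fromEdgeSet_adj]
        exact ⟨rfl, J.ne_of_adj huv⟩
      · rw [h2]
        have hr := hrch p.1 p.2 h0
        rcases Sym2.eq_iff.1 h1 with ⟨h3, h4⟩ | ⟨h3, h4⟩
        · rw [h3, h4]; exact hr
        · rw [h3, h4]; exact hr.symm
      · exfalso
        rcases (hJ u v).1 huv with ⟨x, hx⟩ | hx
        · exact h1 ⟨x, hx⟩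
        · exact h2 hx)
    (by
      intro u v u' v' _ _ hne
      rcases hQ s(u, v) with ⟨x, h1, h2⟩ | ⟨p, h0, h1, h2⟩ | ⟨-, -, h2⟩
      · rcases hQ s(u', v') with ⟨x', h1', h2'⟩ | ⟨p', h0', h1', h2'⟩ | ⟨-, -, h2'⟩
        · rw [h2, h2']; exact disj_single hne
        · rw [h2, h2']; exact ((hLE p'.1 p'.2 x).mono_right (single_le h1)).symm
        · rw [h2']; exact disjoint_bot_right
      · rcases hQ s(u', v') with ⟨x', h1', h2'⟩ | ⟨p', h0', h1', h2'⟩ | ⟨-, -, h2'⟩
        · rw [h2, h2']; exact (hLE p.1 p.2 x').mono_right (single_le h1')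
        · rw [h2, h2']
          apply hLd
          intro hpp
          apply hne
          have : p = p' := hpp
          rw [h1, h1', this]
        · rw [h2']; exact disjoint_bot_right
      · rw [h2]; exact disjoint_bot_left)
  refine ⟨i0, immLe_mono ?_ hfin⟩
  have hnd := nd_le_sq J U hJU
  have hUc : U.card ≤ 2 ^ d * K + K := by omega
  have : nd J ≤ (2 ^ d * K + K) ^ 2 := hnd.trans (Nat.pow_le_pow_left hUc 2)
  exact Nat.add_le_add (hki.trans hUc) (Nat.mul_le_mul_right _ this)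


end family

end Pool.Agent.KS6_88.IM
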